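import Pool.Agent.H58.FM.TC2
import Pool.Agent.H30.FA.TA

/-!
MP_6a7a6f_gt, asymptotic value of the filling radius of complex projective spaces: row COR.
-/

open Topology Filter

namespace Pool.Agent.H58.FM

noncomputable section

open Pool.Agent.H59 Pool.Agent.H48.FR Pool.Agent.H58.FL Pool.Agent.H30.FA

lemma PL_pull {X Y : Type} (g : X → X → X → ℝ) (φ : Y → X) (n : ℕ) (y : ℕ → Y) :
    PL (List.replicate n g) (fun i => φ (y i)) =
      PL (List.replicate n (fun a b c => g (φ a) (φ b) (φ c))) y := by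
  induction n generalizing y with
  | zero => rfl
  | succ n ih =>
    rw [List.replicate_succ, List.replicate_succ]
    change cup 2 (c2 g) (PL (List.replicate n g)) (fun i => φ (y i)) = cup 2 (c2 _) (PL _) y
    unfold cup
    rw [← ih (sh 2 y)]
    rfl

lemma down_KA {κ : ℝ} {J X : Type} [Fintype J] {k : ℕ}
    (C : X → Cfg κ J (V (k + 1 + 2)) (k + 1 + 2)) (δ η : ℝ) : Down (KA C δ η) := by
  intro S hS T hT
  exact ⟨fun u hu v hv => hS.1 u (hT hu) v (hT hv), fun u hu => hS.2 u (hT hu)⟩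

lemma down_KB {κ : ℝ} {J X : Type} [Fintype J] {k : ℕ}
    (C : X → Cfg κ J (V (k + 1 + 2)) (k + 1 + 2)) (δ η : ℝ) : Down (KB C δ η) := by
  intro S hS T hT
  exact ⟨fun u hu v hv => hS.1 u (hT hu) v (hT hv), fun u hu => hS.2 u (hT hu)⟩

lemma down_VS (n : ℕ) (δ : ℝ) : Down (VS n δ) := by
  intro S hS T hT u hu v hv
  exact hS u (hT hu) v (hT hv)

theorem pf_COR (hPRT : T_PRT) (hFRM : T_FRM) (hABS : T_ABS) (hFRI : T_FRI) (hWDG : T_WDG)
    (hEVL : T_EVL) (hCR1 : T_CR1) (hCR2 : T_CR2) (hCR3 : T_CR3) : T_COR := by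
  intro κ κ₂ m h14 hκ hsec k ε hε hε6 hεκ N hK
  have hκ1 : κ ≤ 1 := by
    by_contra hcon
    push Not at hcon
    have h0 : Real.arccos (2 * κ - 1) = 0 := Real.arccos_of_one_le (by linarith)
    rw [h0] at hεκ
    linarith
  obtain ⟨N₀, x, C, L, hx, hL, hCx, hanti, hlip, hp⟩ :=
    hCR3 κ k ε hε (by linarith) hκ1 hε6 hεκ
  obtain ⟨σ⟩ := hsec (k + 1) (Fin N₀) x hx
  obtain ⟨δ, η₁, η₂, hδ, hη₁, hη12, hη₂, hF⟩ := hFRM κ κ₂ m k (Fin N₀) x σ h14 hκ
  obtain ⟨hcov, hA, hB, hAB, ⟨θ, hθ⟩, ⟨η, hη⟩⟩ := hF (UE (CPn (k + 2)) ε) C hCx hanti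
  obtain ⟨s, hs, hcr2⟩ := hCR2
  obtain ⟨dm, hdm, hdm1, hdm2, hdm3⟩ : ∃ dm : ℝ, 0 < dm ∧ L * dm ≤ δ ∧ 5 * (L * dm) ≤ s ∧
      dm ≤ s := by
    refine ⟨min (δ / (L + 1)) (min (s / (5 * (L + 1))) s), ?_, ?_, ?_, ?_⟩
    · have h1 : 0 < L + 1 := by linarith
      positivity
    · have h1 : 0 < L + 1 := by linarith
      calc L * min (δ / (L + 1)) (min (s / (5 * (L + 1))) s) ≤ L * (δ / (L + 1)) :=
            mul_le_mul_of_nonneg_left (min_le_left _ _) hL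
        _ ≤ δ := by
            rw [← mul_div_assoc, div_le_iff₀ h1]
            nlinarith
    · have h1 : 0 < L + 1 := by linarith
      calc 5 * (L * min (δ / (L + 1)) (min (s / (5 * (L + 1))) s)) ≤
            5 * (L * (s / (5 * (L + 1)))) := by
            have := mul_le_mul_of_nonneg_left
              ((min_le_right (δ / (L + 1)) (min (s / (5 * (L + 1))) s)).trans
                (min_le_left _ _)) hL
            linarith
        _ = 5 * L * s / (5 * (L + 1)) := by ring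
        _ ≤ s := by
            rw [div_le_iff₀ (by positivity)]
            nlinarith
    · exact (min_le_right _ _).trans (min_le_right _ _)
  obtain ⟨b, c, hb, hc, hbc, hbd, hval⟩ := hCR1 (k + 2) ε hε N dm (by omega) hdm hK
  have hkur : ∀ p q : CPn (k + 2), dist (kf (CPn (k + 2)) ε hε p).1 (kf (CPn (k + 2)) ε hε q).1 ≤
      dist p q := fun p q => dist_kur_le p q
  have hn0 : ∀ u, ‖f0 C u‖ = 1 := fun u => (C u).e.norm_eq_one 0
  have hn1 : ∀ u, ‖f1 C u‖ = 1 := fun u => (C u).e.norm_eq_one 1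
  have h01 : ∀ u, inner ℂ (f0 C u) (f1 C u) = 0 := fun u =>
    (C u).e.orthonormal.2 (Fin.zero_ne_one)
  have hn2 : ∀ u, ‖f2 C u‖ = 1 := fun u =>
    (hWDG (k + 1 + 2) (f0 C u) (f1 C u) (f0 C u) (f1 C u) (hn0 u) (hn1 u) (h01 u) (hn0 u)
      (hn1 u) (h01 u)).1
  -- the families of small sets
  have hD1 := down_KA C δ η₁
  have hD2 := down_KB C δ η₂
  obtain ⟨hclu, -⟩ := hFRI _ _ (f0 C) (KA C δ η₁) hn0 hA
  obtain ⟨hclc, -⟩ := hFRI _ _ (f2 C) (KB C δ η₂) hn2 hB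
  obtain ⟨hclu', ⟨θ₂, hθ₂⟩⟩ := hFRI _ _ (f1 C) (KA C δ η₁ ∩ KB C δ η₂) hn1 hAB
  obtain ⟨-, ⟨θ₁, hθ₁⟩⟩ := hFRI _ _ (f0 C) (KA C δ η₁ ∩ KB C δ η₂) hn0
    (fun S hS => hA S hS.1)
  have hOn : On (KA C δ η₁ ∪ KB C δ η₂) b := by
    intro t ht
    refine hcov ?_
    intro u hu v hv
    have h1 := (hb t ht) u hu v hv
    exact (hlip u v).trans ((mul_le_mul_of_nonneg_left h1.le hL).trans hdm1)
  have hsupp : ∀ t ∈ (bdL (2 * (k + 2) + 1) (UE (CPn (k + 2)) ε) b).support,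
      Set.range t ∈ KA C δ η₁ ∧ Set.range t ∉ KB C δ η₂ := by
    intro t ht
    rw [hbd] at ht
    have ht1 : t ∈ (mapL (2 * (k + 2) + 1) (kf (CPn (k + 2)) ε hε) c).support := by
      rw [Finsupp.mem_support_iff] at ht ⊢
      intro h0
      apply ht
      rw [Finsupp.smul_apply, h0, smul_zero]
    obtain ⟨t', ht', rfl⟩ : ∃ t' ∈ c.support, kf (CPn (k + 2)) ε hε ∘ t' = t := by
      classical
      have h2 := Finsupp.mapDomain_support ht1
      rw [Finset.mem_image] at h2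
      exact h2
    have hsm := hc t' ht'
    have hgap : ∀ u ∈ Set.range (kf (CPn (k + 2)) ε hε ∘ t'), 2 / 5 ≤ (C u).r 0 - (C u).r 1 := by
      rintro _ ⟨i, rfl⟩
      exact (hp (t' i)).1
    refine ⟨⟨?_, fun u hu => ?_⟩, fun hcon => ?_⟩
    · rintro _ ⟨i, rfl⟩ _ ⟨j, rfl⟩
      have h1 := hsm (t' i) ⟨i, rfl⟩ (t' j) ⟨j, rfl⟩
      have h2 := (hkur (t' i) (t' j)).trans h1.le
      exact (hlip _ _).trans ((mul_le_mul_of_nonneg_left h2 hL).trans hdm1)
    · have := hgap u hu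
      linarith
    · have h1 := hcon.2 _ ⟨0, rfl⟩
      have h2 := hgap _ ⟨0, rfl⟩
      linarith
  obtain ⟨N', hN'⟩ := hABS (UE (CPn (k + 2)) ε) (KA C δ η₁) (KB C δ η₂) hD1 hD2 (up (f0 C))
    (up (f1 C)) (up (f2 C)) θ θ₁ θ₂ m η σ.w σ.w_ne hclu hclc hclu' hθ₁ hθ₂ hθ hη (k + 2)
    (by omega) b hOn hsupp
  -- the value
  have hV : ev (2 * (k + 2)) (PL (List.replicate (k + 2) (up (f0 C))))
      (bdL (2 * (k + 2) + 1) (UE (CPn (k + 2)) ε) b) = N *
      ev (2 * (k + 2)) (PL (List.replicate (k + 2) (ff (k + 2)))) c := by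
    rw [hbd, (hEVL _ _).2.1]
    congr 1
    rw [(hEVL (UE (CPn (k + 2)) ε) (2 * (k + 2))).2.2.2.2.2.2]
    have h1 : (fun y : ℕ → CPn (k + 2) => PL (List.replicate (k + 2) (up (f0 C)))
        (fun i => kf (CPn (k + 2)) ε hε (y i))) =
        PL (List.replicate (k + 2) (up fun p => f0 C (kf (CPn (k + 2)) ε hε p))) := by
      funext y
      exact PL_pull _ _ _ _
    rw [h1]
    refine hcr2 (k + 2) (fun p => f0 C (kf (CPn (k + 2)) ε hε p)) (VS (k + 2) dm)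
      (down_VS _ _) (fun p => hn0 _) (fun p => (hp p).2) (fun S hS p hpS q hqS => ⟨?_, ?_⟩) c hc hbc
    · have h2 := (hPRT κ (Fin N₀) k (C (kf (CPn (k + 2)) ε hε p)) (C (kf (CPn (k + 2)) ε hε q))
        (L * dm) ((hCx _).trans (hCx _).symm) (hanti _) (hanti _)
        ((hlip _ _).trans (mul_le_mul_of_nonneg_left ((hkur p q).trans (hS p hpS q hqS).le)
          hL))).2.1
      have h3 := (hp p).1
      have h4 : ‖inner ℂ (f0 C (kf (CPn (k + 2)) ε hε p)) (f0 C (kf (CPn (k + 2)) ε hε q))‖ ≤ 1 := by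
        have := norm_inner_le_norm (𝕜 := ℂ) (f0 C (kf (CPn (k + 2)) ε hε p))
          (f0 C (kf (CPn (k + 2)) ε hε q))
        rw [hn0, hn0] at this
        linarith
      have h5 : ‖inner ℂ (f0 C (kf (CPn (k + 2)) ε hε p)) (f0 C (kf (CPn (k + 2)) ε hε q))‖ ^ 2 ≤ 1 :=
        pow_le_one₀ (norm_nonneg _) h4
      have h6 : (2 / 5 : ℝ) * (1 - ‖inner ℂ (f0 C (kf (CPn (k + 2)) ε hε p))
          (f0 C (kf (CPn (k + 2)) ε hε q))‖ ^ 2) ≤ 2 * (L * dm) :=
        (mul_le_mul_of_nonneg_right h3 (by linarith)).trans h2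
      linarith
    · exact (hS p hpS q hqS).trans_le hdm3
  rw [hV] at hN'
  have hfin : ∃ z : ℤ, ((m.factorial : ℝ) * 2 ^ m) * N = ((k + 2 : ℕ) : ℝ) * z := by
    rcases hval with h | h
    · refine ⟨N', ?_⟩
      rw [h] at hN'
      rw [← hN']
      ring
    · refine ⟨-N', ?_⟩
      rw [h] at hN'
      push_cast
      push_cast at hN'
      linear_combination -hN'
  obtain ⟨z, hz⟩ := hfin
  refine ⟨z, ?_⟩
  have h7 : (((m.factorial : ℤ) * 2 ^ m * N : ℤ) : ℝ) = ((((k + 2 : ℕ) : ℤ) * z : ℤ) : ℝ) := by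
    push_cast
    push_cast at hz
    exact hz
  exact_mod_cast h7

end

end Pool.Agent.H58.FM
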