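import Pool.Agent.H60.FA.SPL
import Pool.Agent.H58.FL.AsmA
import Pool.Agent.H48.FAS.NIL
import Pool.Agent.H60.FA.ITW
import Pool.Agent.H40.FA.CHG
import Pool.Agent.H51.FA.BNX
import Pool.Agent.H1.FAS.ARI
import Pool.Agent.H59.FA.ABS
import Pool.Agent.H91.FAS.A
import Pool.Agent.H42.FA.BAS
import Pool.Agent.H11.FA.PDK
import Pool.Agent.H42.FA.COM
import Pool.Agent.H67.FA.REC
import Pool.Agent.H91.FAS.TOP
import Pool.Agent.H60.FA.SEL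
import Pool.Agent.H42.FA.OVL
import Pool.Agent.H59.FA.DSP
import Pool.Agent.H4.FA.STE
import Pool.Agent.H11.FA.NSY
import Pool.Agent.H13.FA.FTR
import Pool.Agent.H11.FA.FLP
import Pool.Agent.H59.FA.TRN
import Pool.Agent.H57.FAS.DET
import Pool.Agent.H57.FAS.FOU
import Pool.Agent.H59.FA.SMO
import Pool.Agent.H54.FA.WDG
import Pool.Agent.H46.FA.SEC
import Pool.Agent.H73.FAS.PRT
import Pool.Agent.H1.FAS.QU2
import Pool.Agent.H73.FAS.TRP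
import Pool.Agent.H70.FA.UPC
import Pool.Agent.H4.FA.SCT
import Pool.Agent.H48.FAS.FRM
import Pool.Agent.H59.FA.FRI
import Pool.Agent.H43.FAS.CR1
import Pool.Agent.H17.FA.NEA
import Pool.Agent.H97.FA.CR2
import Pool.Agent.H42.FA.WGT
import Pool.Agent.H59.FA.EIG
import Pool.Agent.H10.FM.CR3
import Pool.Agent.H58.FM.COR
import Pool.Agent.H67.FA.ORD
import Pool.Agent.H43.FAS.ASY

/-!
MP_6a7a6f_gt: composition of the rows of the board fas_modules.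
-/

namespace Pool.Agent.H58.FM.A

open Pool.Agent.H58.FL Pool.Agent.H30.FA Pool.Agent.H58.FM

theorem bSPL : T_SPL := Pool.Agent.H60.FA.pf_SPL

theorem bNIL : T_NIL := Pool.Agent.H48.FAS.pf_NIL Pool.Agent.H58.FL.A.aZA Pool.Agent.H58.FL.A.aEVL Pool.Agent.H58.FL.A.aLOW

theorem bITW : T_ITW := Pool.Agent.H60.FA.pf_ITW Pool.Agent.H58.FL.A.aZA Pool.Agent.H58.FL.A.aEVL Pool.Agent.H58.FL.A.aLOW

theorem bCHG : T_CHG := Pool.Agent.H40.FA.pf_CHG Pool.Agent.H58.FL.A.aZA Pool.Agent.H58.FL.A.aEVL Pool.Agent.H58.FL.A.aLOW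

theorem bBNX : T_BNX := Pool.Agent.H51.FA.pf_BNX Pool.Agent.H58.FL.A.aPRM Pool.Agent.H58.FL.A.aEVL Pool.Agent.H58.FL.A.aLOW

theorem bARI : T_ARI := Pool.Agent.H1.FAS.pf_ARI

theorem bABS : T_ABS := Pool.Agent.H59.FA.pf_ABS bSPL bNIL bITW bCHG bBNX bARI Pool.Agent.H58.FL.A.aCPL Pool.Agent.H58.FL.A.aEVB Pool.Agent.H58.FL.A.aEVL Pool.Agent.H58.FL.A.aLOW

theorem bAGS : T_AGS := Pool.Agent.H91.FAS.pf_AGS

theorem bBAS : T_BAS := Pool.Agent.H42.FA.pf_BAS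

theorem bPDK : T_PDK := Pool.Agent.H11.FA.pf_PDK

theorem bCOM : T_COM := Pool.Agent.H42.FA.pf_COM bBAS

theorem bREC : T_REC := Pool.Agent.H67.FA.pf_REC bBAS bCOM bPDK

theorem bIRR : T_IRR := Pool.Agent.H91.FAS.pf_IRR

theorem bTRA : T_TRA := Pool.Agent.H91.FAS.pf_TRA

theorem bTOP : T_TOP := Pool.Agent.H91.FAS.pf_TOP bTRA bAGS

theorem bSEL : T_SEL := Pool.Agent.H60.FA.pf_SEL

theorem bRED : T_RED := Pool.Agent.H91.FAS.pf_RED bBAS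

theorem bOVL : T_OVL := Pool.Agent.H42.FA.pf_OVL bPDK

theorem bLOW2 : T_LOW2 := Pool.Agent.H91.FAS.pf_LOW2 bBAS

theorem bMID : T_MID := Pool.Agent.H91.FAS.pf_MID bBAS

theorem bDSP : T_DSP := Pool.Agent.H59.FA.pf_DSP bBAS

theorem bSTE : T_STE := Pool.Agent.H4.FA.pf_STE bBAS bPDK bREC bIRR bTOP bSEL bRED bOVL bLOW2 bMID bDSP

theorem bNSY : T_NSY := Pool.Agent.H11.FA.pf_NSY bBAS bSTE

theorem bFTR : T_FTR := Pool.Agent.H13.FA.pf_FTR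

theorem bFLP : T_FLP := Pool.Agent.H11.FA.pf_FLP bFTR

theorem bTRN : T_TRN := Pool.Agent.H59.FA.pf_TRN bBAS

theorem bDET : T_DET := Pool.Agent.H57.FAS.pf_DET bNSY bBAS bFTR bFLP bTRN

theorem bFOU : T_FOU := Pool.Agent.H57.FAS.pf_FOU

theorem bSMO : T_SMO := Pool.Agent.H59.FA.pf_SMO bFLP

theorem bNET : T_NET := Pool.Agent.H54.FA.pf_NET

theorem bSEC : T_SEC := Pool.Agent.H46.FA.pf_SEC bDET bFOU bFLP bSMO bNET bFTR bBAS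

theorem bPRT : T_PRT := Pool.Agent.H73.FAS.pf_PRT bBAS

theorem bQU2 : T_QU2 := Pool.Agent.H1.FAS.pf_QU2 bBAS

theorem bTRP : T_TRP := Pool.Agent.H73.FAS.pf_TRP bBAS bQU2

theorem bWDG : T_WDG := Pool.Agent.H54.FA.pf_WDG

theorem bSPH : T_SPH := Pool.Agent.H54.FA.pf_SPH Pool.Agent.H58.FL.A.aGRM

theorem bUPC : T_UPC := Pool.Agent.H70.FA.pf_UPC bSPH bWDG

theorem bSCT : T_SCT := Pool.Agent.H4.FA.pf_SCT bSPH

theorem bFRM : T_FRM := Pool.Agent.H48.FAS.pf_FRM bBAS bPRT bTRP bWDG bUPC bSCT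

theorem bFRI : T_FRI := Pool.Agent.H59.FA.pf_FRI Pool.Agent.H58.FL.A.aSMC Pool.Agent.H58.FL.A.aINT

theorem bCR1 : T_CR1 := Pool.Agent.H43.FAS.pf_CR1 Pool.Agent.H58.FL.A.aFU2 Pool.Agent.H58.FL.A.aKIL Pool.Agent.H58.FL.A.aSML Pool.Agent.H58.FL.A.aSUP Pool.Agent.H58.FL.A.aVTX Pool.Agent.H58.FL.A.aINV Pool.Agent.H58.FL.A.aSMC Pool.Agent.H58.FL.A.aRPM

theorem bNEA : T_NEA := Pool.Agent.H17.FA.pf_NEA bSPH

theorem bCR2 : T_CR2 := Pool.Agent.H97.FA.pf_CR2 bNEA bCHG bFRI Pool.Agent.H58.FL.A.aRPM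

theorem bWGT : T_WGT := Pool.Agent.H42.FA.pf_WGT

theorem bEIG : T_EIG := Pool.Agent.H59.FA.pf_EIG

theorem bGAP : T_GAP := Pool.Agent.H54.FA.pf_GAP bBAS

theorem bCR3 : T_CR3 := Pool.Agent.H10.FM.pf_CR3 bWGT bEIG bGAP Pool.Agent.H58.FL.A.aRPM

theorem bCOR : T_COR := Pool.Agent.H58.FM.pf_COR bPRT bFRM bABS bFRI bWDG Pool.Agent.H58.FL.A.aEVL bCR1 bCR2 bCR3

theorem bORD : T_ORD := Pool.Agent.H67.FA.pf_ORD bSEC bCOR

theorem bASY : T_ASY := Pool.Agent.H43.FAS.pf_ASY bORD Pool.Agent.H58.FL.A.aFN2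

end Pool.Agent.H58.FM.A
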