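import Pool.Agent.H30.FA.TC
import Pool.Agent.H58.FL.TargetsB

/-!
MP_6a7a6f_gt, asymptotic value of the filling radius of complex projective spaces: further targets
of part C (the topological frame).
-/

open Topology Filter

namespace Pool.Agent.H58.FM

noncomputable section

open Pool.Agent.H59 Pool.Agent.H48.FR Pool.Agent.H58.FL Pool.Agent.H30.FA

/-- QU2: the mean of the squares of the overlaps, tested by the second moment. -/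
def T_QU2 : Prop := ∀ (κ : ℝ) (J E : Type) [Fintype J] [NormedAddCommGroup E]
  [InnerProductSpace ℂ E] (d : ℕ) (C : Cfg κ J E d),
  2 * (∑ a, C.r a ^ 2) ^ 4 ≤ ((∑ a, C.r a ^ 2) ^ 2 + ∑ a, C.r a ^ 4) * qq C.t C.x 2 1

/-- FR1: the two kinds of small sets. -/
def T_FR1 : Prop := ∀ κ κ₂ : ℝ, 1 / 4 < κ₂ → κ₂ < κ → ∃ η₁ η₂ : ℝ, 0 < η₁ ∧ η₁ < η₂ ∧
  η₂ ≤ 1 / 8 ∧ ∀ s : ℝ, 0 < s → ∃ δ₀ : ℝ, 0 < δ₀ ∧ ∀ δ : ℝ, δ ≤ δ₀ →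
  ∀ (J : Type) [Fintype J] (k : ℕ) (X : Type) (C : X → Cfg κ J (V (k + 1 + 2)) (k + 1 + 2))
    (x : J → V (k + 1 + 2)), (∀ u, (C u).x = x) → (∀ u, Antitone (C u).r) →
  Ks C δ ⊆ KA C δ η₁ ∪ KB C δ η₂ ∧
  (∀ S ∈ KA C δ η₁, ∀ u ∈ S, ∀ v ∈ S, 1 - s ≤ ‖inner ℂ (f0 C u) (f0 C v)‖ ^ 2) ∧
  (∀ S ∈ KB C δ η₂, ∀ u ∈ S, κ₂ ≤ (C u).r 1 ∧ ∀ v ∈ S,
    2 - s ≤ ‖inner ℂ (f0 C u) (f0 C v)‖ ^ 2 + ‖inner ℂ (f0 C u) (f1 C v)‖ ^ 2 +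
      ‖inner ℂ (f1 C u) (f0 C v)‖ ^ 2 + ‖inner ℂ (f1 C u) (f1 C v)‖ ^ 2)

/-- FR2: where a section is large the difference of the phase cochains is exact. -/
def T_FR2 : Prop := ∀ (κ κ₂ : ℝ) (m k : ℕ) (J : Type) [Fintype J] (x : J → V (k + 1 + 2))
  (σ : Sec κ κ₂ m (k + 1) J x), ∃ s δ : ℝ, 0 < s ∧ 0 < δ ∧
  ∀ (X : Type) (C : X → Cfg κ J (V (k + 1 + 2)) (k + 1 + 2)),
  (∀ u, (C u).x = x) → (∀ u, Antitone (C u).r) → ∃ η : Fin m → X → X → ℝ,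
  ∀ S : Set X, S.Nonempty →
    (∀ u ∈ S, κ₂ ≤ (C u).r 1 ∧ ∀ v ∈ S, ∑ j, |(C u).t j - (C v).t j| ≤ δ ∧
      1 - s ≤ ‖inner ℂ (f0 C u) (f0 C v)‖ ^ 2 ∧ 1 - s ≤ ‖inner ℂ (f1 C u) (f1 C v)‖ ^ 2) →
    ∃ i, ∀ u ∈ S, ∀ v ∈ S, ∀ z ∈ S,
      σ.w i * (up (f0 C) u v z - up (f1 C) u v z) = d1 (η i) u v z

/-- CR1: chains of small tuples. -/
def T_CR1 : Prop := ∀ (n : ℕ) (ε : ℝ) (hε : 0 < ε) (N : ℤ) (δ : ℝ), 1 ≤ n → 0 < δ →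
  KillsN N (2 * n) (kc (CPn n) ε hε) →
  ∃ (b : LL (2 * n + 2) (UE (CPn n) ε)) (c : LL (2 * n + 1) (CPn n)),
    On {S | ∀ u ∈ S, ∀ v ∈ S, dist u.1 v.1 < δ} b ∧ On (VS n δ) c ∧
    bdL (2 * n) (CPn n) c = 0 ∧
    bdL (2 * n + 1) (UE (CPn n) ε) b = N • mapL (2 * n + 1) (kf (CPn n) ε hε) c ∧
    (ev (2 * n) (PL (List.replicate n (ff n))) c = 1 ∨
      ev (2 * n) (PL (List.replicate n (ff n))) c = -1)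

/-- CR2: the value of the power of the phase cochain of a family of lines which is close to the
identity. -/
def T_CR2 : Prop := ∃ s : ℝ, 0 < s ∧ ∀ (n : ℕ) (f : CPn n → EuclideanSpace ℂ (Fin (n + 1)))
  (K : Set (Set (CPn n))), Down K → (∀ x, ‖f x‖ = 1) →
  (∀ x, 1 / 2 ≤ ‖inner ℂ (f x) (rp x)‖ ^ 2) →
  (∀ S ∈ K, ∀ x ∈ S, ∀ y ∈ S, 1 - s ≤ ‖inner ℂ (f x) (f y)‖ ^ 2 ∧ dist x y < s) →
  ∀ c : LL (2 * n + 1) (CPn n), On K c → bdL (2 * n) (CPn n) c = 0 →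
  ev (2 * n) (PL (List.replicate n (up f))) c = ev (2 * n) (PL (List.replicate n (ff n))) c

/-- CR3: the configurations of the points of the neighbourhood. -/
def T_CR3 : Prop := ∀ (κ : ℝ) (k : ℕ) (ε : ℝ) (hε : 0 < ε), 1 / 4 < κ → κ ≤ 1 →
  ε < Real.pi / 6 → ε < Real.arccos (2 * κ - 1) / 4 →
  ∃ (N : ℕ) (x : Fin N → V (k + 1 + 2))
    (C : UE (CPn (k + 2)) ε → Cfg κ (Fin N) (V (k + 1 + 2)) (k + 1 + 2)) (L : ℝ),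
    (∀ j, ‖x j‖ = 1) ∧ 0 ≤ L ∧ (∀ u, (C u).x = x) ∧ (∀ u, Antitone (C u).r) ∧
    (∀ u v, ∑ j, |(C u).t j - (C v).t j| ≤ L * dist u.1 v.1) ∧
    ∀ p : CPn (k + 2), 2 / 5 ≤ (C (kf (CPn (k + 2)) ε hε p)).r 0 -
        (C (kf (CPn (k + 2)) ε hε p)).r 1 ∧
      1 / 2 ≤ ‖inner ℂ (f0 C (kf (CPn (k + 2)) ε hε p)) (rp p)‖ ^ 2

end

end Pool.Agent.H58.FM
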